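import Pool.Agent.K7.H73.BD.Hall

set_option autoImplicit false

namespace Pool.Agent.K7.H73.BD

open Finset

/-- the numerical core for four letters with `δ = 1/4`, weaker hypothesis -/
theorem core4w (d : Fin 4 → ℕ) (D : ℕ) (hD : 0 < D) (hsum : ∑ i, d i = D)
    (hpos : ∀ i, 0 < d i)
    (H1 : ¬ ∃ (l : ℕ) (k : Fin 4), 2 * l * d k < D ∧
      (∀ i, i ≠ k → D ≤ 2 * ((l * d i) % D)) ∧ ∑ i ∈ univ.erase k, (l * d i) / D + 2 = l)
    (H2 : ¬ ∃ Q : ℕ, Q ≤ D ∧ ∀ i, ∃ z : ℕ, 4 * (Q * d i) = (4 * z + 3) * D)
    (P Q : ℕ) (hPQ : P < Q) (hQ : Q ≤ D) :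
    ∑ i, ((⌊(Q : ℝ) * ((d i : ℝ) / D) - 1 + 1 / 4⌋ + 1) -
      ⌈(P : ℝ) * ((d i : ℝ) / D) - 1 / 4⌉).toNat ≤ Q - P := by
  classical
  have hD' : (0 : ℝ) < D := by exact_mod_cast hD
  have hrs : ∑ i, ((d i : ℝ) / D) = 1 := by
    rw [← Finset.sum_div]
    have : (∑ i, (d i : ℝ)) = D := by exact_mod_cast hsum
    rw [this]; field_simp
  -- `H2` in terms of integers `b i` with `b i = Q r_i - 3/4`
  have H2' : ∀ Q : ℕ, Q ≤ D → ¬ ∃ b : Fin 4 → ℤ, ∀ i, (b i : ℝ) = (Q : ℝ) * ((d i : ℝ) / D) - 3 / 4 := by
    rintro Q hQ ⟨b, hb⟩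
    apply H2
    refine ⟨Q, hQ, fun i => ?_⟩
    have h1 : (b i : ℝ) * (4 * D) = 4 * (Q * d i) - 3 * D := by
      rw [hb i]; field_simp
    have h2 : (b i) * (4 * D) = 4 * (Q * d i) - 3 * D := by exact_mod_cast h1
    have h3 : 0 ≤ b i := by
      by_contra hcon
      push Not at hcon
      have h4 : b i ≤ -1 := by omega
      have h5 : (0 : ℤ) < 4 * D := by
        have : (0 : ℤ) < D := by exact_mod_cast hD
        omega
      have h6 : (b i) * (4 * D) ≤ -1 * (4 * D) := mul_le_mul_of_nonneg_right h4 h5.le
      have h7 : (0 : ℤ) ≤ 4 * (Q * d i) := by positivity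
      have h8 : (0 : ℤ) < D := by exact_mod_cast hD
      linarith
    refine ⟨(b i).toNat, ?_⟩
    have h4 : (((b i).toNat : ℕ) : ℤ) = b i := Int.toNat_of_nonneg h3
    have : ((4 * (Q * d i) : ℕ) : ℤ) = (((4 * (b i).toNat + 3) * D : ℕ) : ℤ) := by
      push_cast
      rw [h4]
      linarith
    exact_mod_cast this
  set a : Fin 4 → ℤ := fun i => ⌈(P : ℝ) * ((d i : ℝ) / D) - 1 / 4⌉ with ha
  set b : Fin 4 → ℤ := fun i => ⌊(Q : ℝ) * ((d i : ℝ) / D) - 1 + 1 / 4⌋ with hb
  have hbl : ∀ i, (b i : ℝ) ≤ (Q : ℝ) * ((d i : ℝ) / D) - 3 / 4 := fun i => by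
    have := Int.floor_le ((Q : ℝ) * ((d i : ℝ) / D) - 1 + 1 / 4)
    have h : (b i : ℝ) ≤ (Q : ℝ) * ((d i : ℝ) / D) - 1 + 1 / 4 := this
    linarith
  have hal : ∀ i, (P : ℝ) * ((d i : ℝ) / D) - 1 / 4 ≤ a i := fun i => Int.le_ceil _
  set I : Finset (Fin 4) := univ.filter (fun i => a i ≤ b i) with hI
  have hsplit : (∑ i, ((b i + 1) - a i).toNat : ℕ) = ∑ i ∈ I, ((b i + 1) - a i).toNat := by
    symm
    apply Finset.sum_subset (Finset.subset_univ _)
    intro i _ hi
    have : ¬ a i ≤ b i := by simpa [hI] using hi
    omega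
  have hcast : ((∑ i ∈ I, ((b i + 1) - a i).toNat : ℕ) : ℤ) = ∑ i ∈ I, ((b i + 1) - a i) := by
    push_cast
    apply Finset.sum_congr rfl
    intro i hi
    have : a i ≤ b i := by simpa [hI] using hi
    omega
  have hPQ' : (P : ℝ) + 1 ≤ Q := by exact_mod_cast hPQ
  have hmain : ∑ i ∈ I, ((b i + 1) - a i) ≤ (Q : ℤ) - P := by
    by_cases hu : I = univ
    · rw [hu]
      have s1 : (∑ i, ((Q : ℝ) * ((d i : ℝ) / D) - 3 / 4)) = Q - 3 := by
        rw [Finset.sum_sub_distrib, ← Finset.mul_sum, hrs]
        simp
        norm_num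
      have s2 : (∑ i, ((P : ℝ) * ((d i : ℝ) / D) - 1 / 4)) = P - 1 := by
        rw [Finset.sum_sub_distrib, ← Finset.mul_sum, hrs]
        simp
      have e1 : ∑ i, b i ≤ (Q : ℤ) - 4 := by
        have h3 : (∑ i, (b i : ℝ)) ≤ Q - 3 := by
          rw [← s1]; exact Finset.sum_le_sum (fun i _ => hbl i)
        have h4 : ∑ i, b i ≤ (Q : ℤ) - 3 := by
          have : ((∑ i, b i : ℤ) : ℝ) ≤ (((Q : ℤ) - 3 : ℤ) : ℝ) := by push_cast; exact h3
          exact_mod_cast this
        by_contra hcon
        have h5 : ∑ i, b i = (Q : ℤ) - 3 := by omega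
        have h6 : (∑ i, (b i : ℝ)) = Q - 3 := by
          have : ((∑ i, b i : ℤ) : ℝ) = (((Q : ℤ) - 3 : ℤ) : ℝ) := by rw [h5]
          push_cast at this; exact this
        refine H2' Q hQ ⟨b, fun i => ?_⟩
        have h7 := (Finset.sum_eq_sum_iff_of_le (fun i _ => hbl i)).1 (h6.trans s1.symm)
        exact h7 i (Finset.mem_univ i)
      have e2 : (P : ℤ) ≤ ∑ i, a i := by
        have h3 : (P : ℝ) - 1 ≤ (∑ i, (a i : ℝ)) := by
          rw [← s2]; exact Finset.sum_le_sum (fun i _ => hal i)
        have h4 : (P : ℤ) - 1 ≤ ∑ i, a i := by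
          have : (((P : ℤ) - 1 : ℤ) : ℝ) ≤ ((∑ i, a i : ℤ) : ℝ) := by push_cast; exact h3
          exact_mod_cast this
        by_contra hcon
        have h5 : ∑ i, a i = (P : ℤ) - 1 := by omega
        have h6 : (∑ i, (a i : ℝ)) = P - 1 := by
          have : ((∑ i, a i : ℤ) : ℝ) = (((P : ℤ) - 1 : ℤ) : ℝ) := by rw [h5]
          push_cast at this; exact this
        have h7 := (Finset.sum_eq_sum_iff_of_le (fun i _ => hal i)).1 (s2.trans h6.symm)
        refine H2' (D - P) (by omega) ⟨fun i => (d i : ℤ) - a i - 1, fun i => ?_⟩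
        have h8 := h7 i (Finset.mem_univ i)
        have h9 : ((D - P : ℕ) : ℝ) = D - P := by
          have : P ≤ D := by omega
          push_cast [this]; ring
        rw [h9]
        push_cast
        rw [← h8]
        field_simp
        ring
      have e3 : ∑ i, ((b i + 1) - a i) = ∑ i, b i + 4 - ∑ i, a i := by
        rw [Finset.sum_sub_distrib, Finset.sum_add_distrib]
        simp
      rw [e3]
      omega
    · obtain ⟨k, hk⟩ : ∃ k, k ∉ I := by
        by_contra h
        push Not at h
        exact hu (Finset.eq_univ_iff_forall.mpr h)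
      have hIk : I ⊆ univ.erase k := fun i hi => by
        simp only [Finset.mem_erase, Finset.mem_univ, and_true]
        rintro rfl; exact hk hi
      have hrk : 0 < (d k : ℝ) / D := by
        have : (0 : ℝ) < d k := by exact_mod_cast hpos k
        positivity
      have hsE : ∑ i ∈ univ.erase k, ((d i : ℝ) / D) = 1 - (d k : ℝ) / D := by
        have h7 := Finset.sum_erase_add univ (fun i => (d i : ℝ) / D) (Finset.mem_univ k)
        rw [hrs] at h7
        linarith
      have hcE : (univ.erase k : Finset (Fin 4)).card = 3 := by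
        rw [Finset.card_erase_of_mem (Finset.mem_univ k)]; simp
      have hterm : ∀ i, ((b i : ℝ) + 1) - a i ≤ ((Q : ℝ) - P) * ((d i : ℝ) / D) + 1 / 2 := by
        intro i
        have := hbl i
        have := hal i
        linarith
      by_cases hE : I = univ.erase k
      · -- three letters
        rw [hE]
        have h8 : ((Q - P : ℕ) : ℝ) = Q - P := by
          push_cast [hPQ.le]; ring
        -- the real sum
        have s3 : (∑ i ∈ univ.erase k, (((Q : ℝ) - P) * ((d i : ℝ) / D) + 1 / 2)) =
            ((Q : ℝ) - P) * (1 - (d k : ℝ) / D) + 3 / 2 := by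
          rw [Finset.sum_add_distrib, ← Finset.mul_sum, hsE, Finset.sum_const, hcE]
          norm_num
        have s4 : (∑ i ∈ univ.erase k, (((b i : ℝ) + 1) - a i)) ≤
            ((Q : ℝ) - P) * (1 - (d k : ℝ) / D) + 3 / 2 := by
          rw [← s3]; exact Finset.sum_le_sum (fun i _ => hterm i)
        have hlk0 : 0 < ((Q : ℝ) - P) * ((d k : ℝ) / D) := mul_pos (by linarith) hrk
        have s5 : ∑ i ∈ univ.erase k, ((b i + 1) - a i) ≤ (Q : ℤ) - P + 1 := by
          have : ((∑ i ∈ univ.erase k, ((b i + 1) - a i) : ℤ) : ℝ) <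
              (((Q : ℤ) - P + 1 + 1 : ℤ) : ℝ) := by
            push_cast
            nlinarith
          have := Int.cast_lt.mp this
          omega
        by_contra hcon
        have s6 : ∑ i ∈ univ.erase k, ((b i + 1) - a i) = (Q : ℤ) - P + 1 := by omega
        have s7 : (∑ i ∈ univ.erase k, (((b i : ℝ) + 1) - a i)) = (Q : ℝ) - P + 1 := by
          have : ((∑ i ∈ univ.erase k, ((b i + 1) - a i) : ℤ) : ℝ) =
              (((Q : ℤ) - P + 1 : ℤ) : ℝ) := by rw [s6]
          push_cast at this; exact this
        have hlk1 : ((Q : ℝ) - P) * ((d k : ℝ) / D) ≤ 1 / 2 := by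
          nlinarith
        -- the case of a strict window
        have hlk' : (1 : ℝ) / 2 ≤ ((Q : ℝ) - P) * ((d k : ℝ) / D) := by
          by_contra hlt
          push Not at hlt
          apply H1
          refine ⟨Q - P, k, ?_, ?_⟩
          · have h9 : 2 * ((Q : ℝ) - P) * d k < D := by
              rw [mul_div_assoc', div_lt_iff₀ hD'] at hlt
              linarith
            rw [← h8] at h9
            exact_mod_cast h9
          · -- the three other letters
            have hsum0 : ∑ i ∈ univ.erase k,
                ((((Q : ℝ) - P) * ((d i : ℝ) / D) + 1 / 2) - (((b i : ℝ) + 1) - a i)) < 1 / 2 := by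
              rw [Finset.sum_sub_distrib, s3, s7]
              nlinarith
            have hei : ∀ i ∈ univ.erase k,
                (((Q : ℝ) - P) * ((d i : ℝ) / D) + 1 / 2) - (((b i : ℝ) + 1) - a i) < 1 / 2 := by
              intro i hi
              refine lt_of_le_of_lt ?_ hsum0
              exact Finset.single_le_sum
                (f := fun i => (((Q : ℝ) - P) * ((d i : ℝ) / D) + 1 / 2) -
                  (((b i : ℝ) + 1) - a i))
                (fun j _ => sub_nonneg.2 (hterm j)) hi
            have hab : ∀ i ∈ univ.erase k, a i ≤ b i := by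
              intro i hi
              rw [← hE] at hi
              simpa [hI] using hi
            -- `(Q-P) d_i = (b_i - a_i) D + rest`
            have hkey : ∀ i ∈ univ.erase k, ((b i - a i) * D * 2 + D : ℤ) ≤ 2 * ((Q - P : ℕ) * d i) ∧
                (2 * ((Q - P : ℕ) * d i) : ℤ) < (b i - a i) * D * 2 + 2 * D := by
              intro i hi
              have h1 := hterm i
              have h2 := hei i hi
              have e1 : ((Q : ℝ) - P) * ((d i : ℝ) / D) * (2 * D) = 2 * (((Q : ℝ) - P) * d i) := by
                field_simp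
              constructor
              · have h3 : (((b i : ℝ) - a i) * D * 2 + D) ≤ 2 * (((Q - P : ℕ) : ℝ) * d i) := by
                  rw [h8, ← e1]
                  nlinarith
                exact_mod_cast h3
              · have h3 : 2 * (((Q - P : ℕ) : ℝ) * d i) < (((b i : ℝ) - a i) * D * 2 + 2 * D) := by
                  rw [h8, ← e1]
                  nlinarith
                exact_mod_cast h3
            have hdiv : ∀ i ∈ univ.erase k, ((((Q - P) * d i) / D : ℕ) : ℤ) = b i - a i ∧
                D ≤ 2 * (((Q - P) * d i) % D) := by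
              intro i hi
              obtain ⟨h1, h2⟩ := hkey i hi
              have h3 := hab i hi
              obtain ⟨w, hw⟩ : ∃ w : ℕ, (w : ℤ) = b i - a i := ⟨(b i - a i).toNat, by omega⟩
              rw [← hw] at h1 h2 ⊢
              have h4 : w * D * 2 + D ≤ 2 * ((Q - P) * d i) := by exact_mod_cast h1
              have h5 : 2 * ((Q - P) * d i) < w * D * 2 + 2 * D := by exact_mod_cast h2
              set m := (Q - P) * d i with hm
              have h6 : m / D = w := by
                rw [Nat.div_eq_iff hD]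
                constructor
                · omega
                · omega
              have h7 := Nat.div_add_mod m D
              rw [h6] at h7
              constructor
              · exact_mod_cast h6
              · have h9 : D * w = w * D := mul_comm _ _
                omega
            refine ⟨fun i hi => (hdiv i (by simp [hi])).2, ?_⟩
            have h10 : ((∑ i ∈ univ.erase k, ((Q - P) * d i) / D : ℕ) : ℤ) =
                ∑ i ∈ univ.erase k, (b i - a i) := by
              push_cast
              apply Finset.sum_congr rfl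
              intro i hi
              have := (hdiv i hi).1
              push_cast at this
              exact this
            have h11 : ∑ i ∈ univ.erase k, ((b i + 1) - a i) =
                ∑ i ∈ univ.erase k, (b i - a i) + 3 := by
              have : ∀ i ∈ univ.erase k, (b i + 1) - a i = (b i - a i) + 1 := fun i _ => by ring
              rw [Finset.sum_congr rfl this, Finset.sum_add_distrib, Finset.sum_const, hcE]
              norm_num
            rw [h11, ← h10] at s6
            omega
        have s8 : (∑ i ∈ univ.erase k, (((b i : ℝ) + 1) - a i)) =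
            (∑ i ∈ univ.erase k, (((Q : ℝ) - P) * ((d i : ℝ) / D) + 1 / 2)) := by
          rw [s3]
          apply le_antisymm s4
          rw [s7]
          nlinarith
        have s9 := (Finset.sum_eq_sum_iff_of_le (fun i _ => hterm i)).1 s8
        have hbeq : ∀ i ∈ univ.erase k, (b i : ℝ) = (Q : ℝ) * ((d i : ℝ) / D) - 3 / 4 := by
          intro i hi
          have h1 := s9 i hi
          have h2 := hbl i
          have h3 := hal i
          linarith
        refine H2' Q hQ ⟨fun i => if i = k then (Q : ℤ) - 3 - ∑ j ∈ univ.erase k, b j else b i,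
          fun i => ?_⟩
        by_cases hik : i = k
        · subst hik
          simp only [if_true]
          push_cast
          rw [Finset.sum_congr rfl hbeq, Finset.sum_sub_distrib, ← Finset.mul_sum, hsE,
            Finset.sum_const, hcE]
          norm_num
          ring
        · simp only [hik, if_false]
          exact hbeq i (by simp [hik])
      · -- at most two letters
        have hcI : I.card ≤ 2 := by
          have h1 := Finset.card_lt_card (Finset.ssubset_iff_subset_ne.2 ⟨hIk, hE⟩)
          rw [hcE] at h1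
          omega
        have hcI' : (I.card : ℝ) ≤ 2 := by exact_mod_cast hcI
        have hsI : ∑ i ∈ I, ((d i : ℝ) / D) ≤ 1 - (d k : ℝ) / D := by
          rw [← hsE]
          exact Finset.sum_le_sum_of_subset_of_nonneg hIk (fun i _ _ => by positivity)
        have e4 : (∑ i ∈ I, (((b i : ℝ) + 1) - a i)) < (Q : ℝ) - P + 1 := by
          calc (∑ i ∈ I, (((b i : ℝ) + 1) - a i))
              ≤ ∑ i ∈ I, (((Q : ℝ) - P) * ((d i : ℝ) / D) + 1 / 2) :=
                Finset.sum_le_sum (fun i _ => hterm i)
            _ = ((Q : ℝ) - P) * ∑ i ∈ I, ((d i : ℝ) / D) + I.card * (1 / 2) := by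
                rw [Finset.sum_add_distrib, ← Finset.mul_sum]
                simp
            _ ≤ ((Q : ℝ) - P) * (1 - (d k : ℝ) / D) + 1 := by
                have : (0 : ℝ) ≤ (Q : ℝ) - P := by linarith
                have h8 := mul_le_mul_of_nonneg_left hsI this
                linarith
            _ < (Q : ℝ) - P + 1 := by
                have : (0 : ℝ) < ((Q : ℝ) - P) * ((d k : ℝ) / D) := by
                  apply mul_pos _ hrk
                  linarith
                nlinarith
        have e5 : ((∑ i ∈ I, ((b i + 1) - a i) : ℤ) : ℝ) < (((Q : ℤ) - P + 1 : ℤ) : ℝ) := by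
          push_cast
          exact e4
        have := Int.cast_lt.mp e5
        omega
  have : ((∑ i, ((b i + 1) - a i).toNat : ℕ) : ℤ) ≤ ((Q - P : ℕ) : ℤ) := by
    rw [hsplit, hcast]
    omega
  exact_mod_cast this

end Pool.Agent.K7.H73.BD
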