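import Pool.Agent.K7.H73.BD.Hall

set_option autoImplicit false

namespace Pool.Agent.K7.H73.BD

open Finset

/-- the interval condition: at most `Q - P` copies are forced into the places `P, …, Q - 1` -/
def Core {n : ℕ} (d : Fin n → ℕ) (D : ℕ) (δ : ℝ) : Prop :=
  ∀ P Q : ℕ, P < Q → Q ≤ D →
    ∑ i, ((⌊(Q : ℝ) * ((d i : ℝ) / D) - 1 + δ⌋ + 1) - ⌈(P : ℝ) * ((d i : ℝ) / D) - δ⌉).toNat
      ≤ Q - P

theorem count_le' {n : ℕ} (d : Fin n → ℕ) (D : ℕ) (δ : ℝ) (hD : 0 < D) (hsum : ∑ i, d i = D)
    (hcore : Core d D δ) (hδ0 : 0 ≤ δ) (hδ : δ < 1 / 2) (P Q : ℕ) (hPQ : P < Q) (hQ : Q ≤ D) (A : Finset (Job d))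
    (hA : ∀ x ∈ A, ∀ t ∈ adm d D δ x, P ≤ (t : ℕ) ∧ (t : ℕ) < Q) :
    A.card ≤ Q - P := by
  classical
  refine le_trans ?_ (hcore P Q hPQ hQ)
  have hD' : (0 : ℝ) < D := by exact_mod_cast hD
  -- bounds for the copies
  have key : ∀ x ∈ A, ⌈(P : ℝ) * ((d x.1 : ℝ) / D) - δ⌉ ≤ ((x.2 : ℕ) : ℤ) ∧
      ((x.2 : ℕ) : ℤ) ≤ ⌊(Q : ℝ) * ((d x.1 : ℝ) / D) - 1 + δ⌋ := by
    intro x hx
    obtain ⟨t0, ht0⟩ := adm_nonempty d D δ hD hδ x
    have hb := hA x hx t0 ht0
    have hm := (mem_adm d D δ x t0).1 ht0
    have hr0 : 0 ≤ (d x.1 : ℝ) / D := by positivity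
    set r : ℝ := (d x.1 : ℝ) / D with hr
    have hDr : (D : ℝ) * r = d x.1 := by rw [hr]; field_simp
    have hj : ((x.2 : ℕ) : ℝ) + 1 ≤ d x.1 := by exact_mod_cast x.2.2
    constructor
    · rw [Int.ceil_le]
      push_cast
      rcases Nat.eq_zero_or_pos P with hP | hP
      · rw [hP]
        have : (0 : ℝ) ≤ ((x.2 : ℕ) : ℝ) := by positivity
        simp; linarith
      · have hlt : P - 1 < D := by omega
        have hn : (⟨P - 1, hlt⟩ : Fin D) ∉ adm d D δ x := by
          intro h
          have := (hA x hx _ h).1
          simp at this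
          omega
        rw [mem_adm] at hn
        have hP1 : (((P - 1 : ℕ) : ℝ)) = P - 1 := by push_cast [hP]; ring
        simp only [hP1] at hn
        by_contra hcon
        apply hn
        refine ⟨?_, ?_⟩
        · have : (P : ℝ) - 1 + 1 = P := by ring
          rw [this]
          push Not at hcon
          linarith
        · have h5 : (P : ℝ) ≤ ((t0 : ℕ) : ℝ) := by exact_mod_cast hb.1
          have h6 := mul_le_mul_of_nonneg_right h5 hr0
          have := hm.2
          nlinarith
    · rw [Int.le_floor]
      push_cast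
      rcases Nat.lt_or_ge Q D with hQD | hQD
      · have hn : (⟨Q, hQD⟩ : Fin D) ∉ adm d D δ x := by
          intro h
          have := (hA x hx _ h).2
          simp at this
        rw [mem_adm] at hn
        by_contra hcon
        apply hn
        refine ⟨?_, ?_⟩
        · have h5 : ((t0 : ℕ) : ℝ) ≤ (Q : ℝ) := by exact_mod_cast hb.2.le
          have h6 := mul_le_mul_of_nonneg_right h5 hr0
          have := hm.1
          change ((x.2 : ℕ) : ℝ) + 1 - ((Q : ℝ) + 1) * r < 1 - δ
          nlinarith
        · change ((Q : ℕ) : ℝ) * r - ((x.2 : ℕ) : ℝ) < 1 - δ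
          push Not at hcon
          linarith
      · have : Q = D := by omega
        rw [this, hDr]
        linarith
  -- count
  have hcard : A.card = ∑ i, (A.filter (fun x => x.1 = i)).card := by
    rw [← Finset.card_biUnion]
    · congr 1
      ext x; simp
    · intro i _ j _ hij
      rw [Function.onFun, Finset.disjoint_left]
      intro x hx hx'
      simp only [Finset.mem_filter] at hx hx'
      exact hij (hx.2.symm.trans hx'.2)
  rw [hcard]
  apply Finset.sum_le_sum
  intro i _
  rw [← Int.card_Icc]
  apply Finset.card_le_card_of_injOn (fun x => ((x.2 : ℕ) : ℤ))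
  · intro x hx
    simp only [Finset.coe_filter, Set.mem_setOf_eq] at hx
    obtain ⟨hx1, rfl⟩ := hx
    have := key x hx1
    simpa using this
  · intro x hx y hy hxy
    simp only [Finset.coe_filter, Set.mem_setOf_eq] at hx hy
    obtain ⟨-, hx⟩ := hx
    obtain ⟨-, hy⟩ := hy
    obtain ⟨i1, j1⟩ := x
    obtain ⟨i2, j2⟩ := y
    simp only at hx hy hxy
    subst hx
    subst hy
    have : (j1 : ℕ) = j2 := by exact_mod_cast hxy
    have : j1 = j2 := Fin.ext this
    rw [this]

theorem hall_cond' {n : ℕ} (d : Fin n → ℕ) (D : ℕ) (δ : ℝ) (hD : 0 < D) (hsum : ∑ i, d i = D)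
    (hcore : Core d D δ) (hδ0 : 0 ≤ δ) (hδ : δ < 1 / 2) (A : Finset (Job d)) : A.card ≤ (A.biUnion (adm d D δ)).card := by
  classical
  induction A using Finset.strongInduction with
  | H A ih =>
    rcases A.eq_empty_or_nonempty with h0 | hne
    · rw [h0]; simp
    set U := A.biUnion (adm d D δ) with hU
    have hUne : U.Nonempty := by
      obtain ⟨x, hx⟩ := hne
      obtain ⟨t, ht⟩ := adm_nonempty d D δ hD hδ x
      exact ⟨t, Finset.mem_biUnion.2 ⟨x, hx, ht⟩⟩
    set q := U.max' hUne with hq
    have hqU : q ∈ U := U.max'_mem hUne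
    have hmax : ∀ t ∈ U, t ≤ q := fun t ht => U.le_max' t ht
    have hin : ∀ x ∈ A, ∀ t ∈ adm d D δ x, t ∈ U := fun x hx t ht =>
      Finset.mem_biUnion.2 ⟨x, hx, ht⟩
    set Cb := (Finset.univ : Finset (Fin D)).filter (fun t => t < q ∧ t ∉ U) with hCb
    rcases Cb.eq_empty_or_nonempty with hc | hc
    · -- every place `≤ q` is in `U`
      have hsub : Finset.Iic q ⊆ U := by
        intro t ht
        rw [Finset.mem_Iic] at ht
        rcases ht.lt_or_eq with h | h
        · by_contra hcon
          have : t ∈ Cb := by simp [hCb, h, hcon]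
          rw [hc] at this
          exact absurd this (Finset.notMem_empty _)
        · rw [h]; exact hqU
      have hle := count_le' d D δ hD hsum hcore hδ0 hδ 0 ((q : ℕ) + 1) (by omega)
        (by have := q.2; omega) A (fun x hx t ht => ⟨Nat.zero_le _, by
          have := hmax t (hin x hx t ht)
          have : (t : ℕ) ≤ q := this
          omega⟩)
      calc A.card ≤ (q : ℕ) + 1 - 0 := hle
        _ = (Finset.Iic q).card := by rw [Fin.card_Iic]; omega
        _ ≤ U.card := Finset.card_le_card hsub
    · set p := Cb.max' hc with hp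
      have hpC : p ∈ Cb := Cb.max'_mem hc
      have hpq : p < q := by
        have := hpC
        rw [hCb, Finset.mem_filter] at this
        exact this.2.1
      have hpU : p ∉ U := by
        have := hpC
        rw [hCb, Finset.mem_filter] at this
        exact this.2.2
      have hsub : Finset.Ioc p q ⊆ U := by
        intro t ht
        rw [Finset.mem_Ioc] at ht
        rcases ht.2.lt_or_eq with h | h
        · by_contra hcon
          have : t ∈ Cb := by simp [hCb, h, hcon]
          have := Cb.le_max' t this
          exact absurd ht.1 (not_lt.mpr this)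
        · rw [h]; exact hqU
      set A2 := A.filter (fun x => adm d D δ x ⊆ Finset.Ioc p q) with hA2
      set A1 := A.filter (fun x => ¬ adm d D δ x ⊆ Finset.Ioc p q) with hA1
      have hcardA : A.card = A2.card + A1.card := by
        rw [hA2, hA1]
        exact (Finset.card_filter_add_card_filter_not _).symm
      have hA1dis : ∀ x ∈ A1, ∀ t ∈ adm d D δ x, t < p := by
        intro x hx t ht
        rw [hA1, Finset.mem_filter] at hx
        obtain ⟨s, hs, hs'⟩ := Finset.not_subset.1 hx.2
        have hsU := hin x hx.1 s hs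
        have hsp : s < p := by
          have h3 := hmax s hsU
          rw [Finset.mem_Ioc] at hs'
          push Not at hs'
          by_contra hcon
          push Not at hcon
          rcases hcon.lt_or_eq with h | h
          · exact absurd h3 (not_le.mpr (hs' h))
          · exact hpU (h ▸ hsU)
        by_contra hcon
        push Not at hcon
        have := adm_convex d D δ x hsp.le hcon hs ht
        exact hpU (hin x hx.1 p this)
      have hlt : A1 ⊂ A := by
        refine Finset.ssubset_iff_subset_ne.2 ⟨Finset.filter_subset _ _, ?_⟩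
        intro h
        obtain ⟨x, hx, hxq⟩ := Finset.mem_biUnion.1 hqU
        rw [← h] at hx
        exact absurd (hA1dis x hx q hxq) (not_lt.mpr hpq.le)
      have h3 := ih A1 hlt
      have h4 : A2.card ≤ ((q : ℕ) + 1) - ((p : ℕ) + 1) := by
        apply count_le' d D δ hD hsum hcore hδ0 hδ ((p : ℕ) + 1) ((q : ℕ) + 1)
          (by have : (p : ℕ) < q := hpq
              omega) (by have := q.2; omega) A2
        intro x hx t ht
        rw [hA2, Finset.mem_filter] at hx
        have := hx.2 ht
        rw [Finset.mem_Ioc] at this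
        have h5 : (p : ℕ) < t := this.1
        have h6 : (t : ℕ) ≤ q := this.2
        omega
      have hdis : Disjoint (A1.biUnion (adm d D δ)) (Finset.Ioc p q) := by
        rw [Finset.disjoint_left]
        intro t ht ht'
        obtain ⟨x, hx, hxt⟩ := Finset.mem_biUnion.1 ht
        have := hA1dis x hx t hxt
        rw [Finset.mem_Ioc] at ht'
        exact absurd this (not_lt.mpr ht'.1.le)
      have h7 : (A1.biUnion (adm d D δ)) ∪ (Finset.Ioc p q) ⊆ U := by
        apply Finset.union_subset _ hsub
        intro t ht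
        obtain ⟨x, hx, hxt⟩ := Finset.mem_biUnion.1 ht
        exact hin x (Finset.filter_subset _ _ hx) t hxt
      have h8 := Finset.card_le_card h7
      rw [Finset.card_union_of_disjoint hdis, Fin.card_Ioc] at h8
      omega

theorem exists_seq' {n : ℕ} (d : Fin n → ℕ) (D : ℕ) (δ : ℝ) (hD : 0 < D) (hsum : ∑ i, d i = D)
    (hcore : Core d D δ) (hδ0 : 0 ≤ δ) (hδ : δ < 1 / 2) : ∃ s : Fin D → Fin n, IsSeq d s ∧ ∀ (i : Fin n) (k : ℕ), k ≤ D →
      |(occ s i k : ℝ) - k * ((d i : ℝ) / D)| < 1 - δ := by
  classical
  obtain ⟨f, hf, hfm⟩ := (Finset.all_card_le_biUnion_card_iff_exists_injective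
    (adm d D δ)).1 (hall_cond' d D δ hD hsum hcore hδ0 hδ)
  have hcard : Fintype.card (Job d) = Fintype.card (Fin D) := by
    rw [Fintype.card_sigma, Fintype.card_fin]
    simpa using hsum
  have hbij : Function.Bijective f := (Fintype.bijective_iff_injective_and_card f).2 ⟨hf, hcard⟩
  let e : Job d ≃ Fin D := Equiv.ofBijective f hbij
  have he : ∀ x, e x = f x := fun x => rfl
  let s : Fin D → Fin n := fun t => (e.symm t).1
  have hse : ∀ x, s (e x) = x.1 := fun x => by simp [s]
  -- general counting
  have hcnt : ∀ (i : Fin n) (Pr : Fin D → Prop) [DecidablePred Pr],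
      (Finset.univ.filter (fun t => Pr t ∧ s t = i)).card =
        (Finset.univ.filter (fun j : Fin (d i) => Pr (e ⟨i, j⟩))).card := by
    intro i Pr _
    symm
    apply Finset.card_bij (fun j _ => e ⟨i, j⟩)
    · intro j hj
      simp only [Finset.mem_filter, Finset.mem_univ, true_and] at hj ⊢
      exact ⟨hj, hse _⟩
    · intro j _ j' _ h
      have := e.injective h
      simpa using this
    · intro t ht
      simp only [Finset.mem_filter, Finset.mem_univ, true_and] at ht
      obtain ⟨h3, h4⟩ := ht
      have h5 : (e.symm t).1 = i := h4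
      rcases he' : e.symm t with ⟨i', j'⟩
      rw [he'] at h5
      simp only at h5
      subst h5
      refine ⟨j', ?_, ?_⟩
      · simp only [Finset.mem_filter, Finset.mem_univ, true_and]
        rw [← he', e.apply_symm_apply]; exact h3
      · rw [← he', e.apply_symm_apply]
  refine ⟨s, ?_, ?_⟩
  · intro i
    have := hcnt i (fun _ => True)
    simp only [true_and, Finset.filter_true, Finset.card_univ, Fintype.card_fin] at this
    exact this
  · intro i k hk
    have hD' : (0 : ℝ) < D := by exact_mod_cast hD
    set r : ℝ := (d i : ℝ) / D with hr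
    have hr0 : 0 ≤ r := by positivity
    have hDr : (D : ℝ) * r = d i := by rw [hr]; field_simp
    have hocc : occ s i k =
        (Finset.univ.filter (fun j : Fin (d i) => (e ⟨i, j⟩ : ℕ) < k)).card :=
      hcnt i (fun t => (t : ℕ) < k)
    set X := Finset.univ.filter (fun j : Fin (d i) => (e ⟨i, j⟩ : ℕ) < k) with hX
    set Y := Finset.univ.filter (fun j : Fin (d i) => ¬ (e ⟨i, j⟩ : ℕ) < k) with hY
    have hXY : X.card + Y.card = d i := by
      rw [hX, hY, Finset.card_filter_add_card_filter_not]
      simp
    rw [hocc, abs_lt]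
    constructor
    · -- `k r - (1-δ) < x`
      rcases Y.eq_empty_or_nonempty with h0 | hne
      · have : X.card = d i := by rw [h0] at hXY; simpa using hXY
        rw [this, ← hDr]
        have : (k : ℝ) ≤ D := by exact_mod_cast hk
        have := mul_le_mul_of_nonneg_right this hr0
        linarith
      · -- an element of `Y` with `j ≤ d i - |Y|`
        obtain ⟨j, hj, hjl⟩ : ∃ j ∈ Y, (j : ℕ) ≤ X.card := by
          by_contra hcon
          push Not at hcon
          have : Y.card ≤ (Finset.Ioo X.card (d i)).card := by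
            apply Finset.card_le_card_of_injOn (fun j : Fin (d i) => (j : ℕ))
            · intro j hj
              have := hcon j hj
              simp only [Finset.coe_Ioo, Set.mem_Ioo]
              exact ⟨this, j.2⟩
            · intro a _ b _ h
              exact Fin.ext h
          rw [Nat.card_Ioo] at this
          have := Finset.card_pos.2 hne
          omega
        have hm := (mem_adm d D δ _ _).1 (hfm ⟨i, j⟩)
        have h3 := hm.2
        simp only [hY, Finset.mem_filter, Finset.mem_univ, true_and, not_lt] at hj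
        have h4 : (k : ℝ) ≤ ((f ⟨i, j⟩ : ℕ) : ℝ) := by exact_mod_cast hj
        have h5 := mul_le_mul_of_nonneg_right h4 hr0
        have h6 : ((j : ℕ) : ℝ) ≤ X.card := by exact_mod_cast hjl
        change ((f ⟨i, j⟩ : ℕ) : ℝ) * r - ((j : ℕ) : ℝ) < 1 - δ at h3
        linarith
    · rcases X.eq_empty_or_nonempty with h0 | hne
      · rw [h0]
        have : 0 ≤ (k : ℝ) * r := by positivity
        simp; linarith
      · obtain ⟨j, hj, hjl⟩ : ∃ j ∈ X, X.card ≤ (j : ℕ) + 1 := by
          by_contra hcon
          push Not at hcon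
          have : X.card ≤ (Finset.range (X.card - 1)).card := by
            apply Finset.card_le_card_of_injOn (fun j : Fin (d i) => (j : ℕ))
            · intro j hj
              have := hcon j hj
              simp only [Finset.coe_range, Set.mem_Iio]
              omega
            · intro a _ b _ h
              exact Fin.ext h
          rw [Finset.card_range] at this
          have := Finset.card_pos.2 hne
          omega
        have hm := (mem_adm d D δ _ _).1 (hfm ⟨i, j⟩)
        have h3 := hm.1
        simp only [hX, Finset.mem_filter, Finset.mem_univ, true_and] at hj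
        have h4 : ((f ⟨i, j⟩ : ℕ) : ℝ) + 1 ≤ (k : ℝ) := by exact_mod_cast hj
        have h5 := mul_le_mul_of_nonneg_right h4 hr0
        have h6 : ((X.card : ℕ) : ℝ) ≤ ((j : ℕ) : ℝ) + 1 := by exact_mod_cast hjl
        change ((j : ℕ) : ℝ) + 1 - (((f ⟨i, j⟩ : ℕ) : ℝ) + 1) * r < 1 - δ at h3
        linarith

end Pool.Agent.K7.H73.BD
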