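import Pool.Agent.K7.H73.BD.Match

set_option autoImplicit false

namespace Pool.Agent.K7.H73.BD

open Finset

theorem hall_cond {n : ℕ} (d : Fin n → ℕ) (D : ℕ) (δ : ℝ) (hD : 0 < D) (hsum : ∑ i, d i = D)
    (hpos : ∀ i, 0 < d i) (h1 : (n - 1 : ℝ) * (2 * δ) ≤ 1) (h2 : n * δ < 1) (hδ0 : 0 ≤ δ)
    (hδ : δ < 1 / 2) (A : Finset (Job d)) : A.card ≤ (A.biUnion (adm d D δ)).card := by
  classical
  induction A using Finset.strongInduction with
  | H A ih =>
    rcases A.eq_empty_or_nonempty with h0 | hne
    · rw [h0]; simp
    set U := A.biUnion (adm d D δ) with hU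
    have hUne : U.Nonempty := by
      obtain ⟨x, hx⟩ := hne
      obtain ⟨t, ht⟩ := adm_nonempty d D δ hD hδ x
      exact ⟨t, Finset.mem_biUnion.2 ⟨x, hx, ht⟩⟩
    set q := U.max' hUne with hq
    have hqU : q ∈ U := U.max'_mem hUne
    have hmax : ∀ t ∈ U, t ≤ q := fun t ht => U.le_max' t ht
    have hin : ∀ x ∈ A, ∀ t ∈ adm d D δ x, t ∈ U := fun x hx t ht =>
      Finset.mem_biUnion.2 ⟨x, hx, ht⟩
    set Cb := (Finset.univ : Finset (Fin D)).filter (fun t => t < q ∧ t ∉ U) with hCb
    rcases Cb.eq_empty_or_nonempty with hc | hc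
    · -- every place `≤ q` is in `U`
      have hsub : Finset.Iic q ⊆ U := by
        intro t ht
        rw [Finset.mem_Iic] at ht
        rcases ht.lt_or_eq with h | h
        · by_contra hcon
          have : t ∈ Cb := by simp [hCb, h, hcon]
          rw [hc] at this
          exact absurd this (Finset.notMem_empty _)
        · rw [h]; exact hqU
      have hle := count_le d D δ hD hsum hpos h1 h2 hδ0 hδ 0 ((q : ℕ) + 1) (by omega)
        (by have := q.2; omega) A (fun x hx t ht => ⟨Nat.zero_le _, by
          have := hmax t (hin x hx t ht)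
          have : (t : ℕ) ≤ q := this
          omega⟩)
      calc A.card ≤ (q : ℕ) + 1 - 0 := hle
        _ = (Finset.Iic q).card := by rw [Fin.card_Iic]; omega
        _ ≤ U.card := Finset.card_le_card hsub
    · set p := Cb.max' hc with hp
      have hpC : p ∈ Cb := Cb.max'_mem hc
      have hpq : p < q := by
        have := hpC
        rw [hCb, Finset.mem_filter] at this
        exact this.2.1
      have hpU : p ∉ U := by
        have := hpC
        rw [hCb, Finset.mem_filter] at this
        exact this.2.2
      have hsub : Finset.Ioc p q ⊆ U := by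
        intro t ht
        rw [Finset.mem_Ioc] at ht
        rcases ht.2.lt_or_eq with h | h
        · by_contra hcon
          have : t ∈ Cb := by simp [hCb, h, hcon]
          have := Cb.le_max' t this
          exact absurd ht.1 (not_lt.mpr this)
        · rw [h]; exact hqU
      set A2 := A.filter (fun x => adm d D δ x ⊆ Finset.Ioc p q) with hA2
      set A1 := A.filter (fun x => ¬ adm d D δ x ⊆ Finset.Ioc p q) with hA1
      have hcardA : A.card = A2.card + A1.card := by
        rw [hA2, hA1]
        exact (Finset.card_filter_add_card_filter_not _).symm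
      have hA1dis : ∀ x ∈ A1, ∀ t ∈ adm d D δ x, t < p := by
        intro x hx t ht
        rw [hA1, Finset.mem_filter] at hx
        obtain ⟨s, hs, hs'⟩ := Finset.not_subset.1 hx.2
        have hsU := hin x hx.1 s hs
        have hsp : s < p := by
          have h3 := hmax s hsU
          rw [Finset.mem_Ioc] at hs'
          push Not at hs'
          by_contra hcon
          push Not at hcon
          rcases hcon.lt_or_eq with h | h
          · exact absurd h3 (not_le.mpr (hs' h))
          · exact hpU (h ▸ hsU)
        by_contra hcon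
        push Not at hcon
        have := adm_convex d D δ x hsp.le hcon hs ht
        exact hpU (hin x hx.1 p this)
      have hlt : A1 ⊂ A := by
        refine Finset.ssubset_iff_subset_ne.2 ⟨Finset.filter_subset _ _, ?_⟩
        intro h
        obtain ⟨x, hx, hxq⟩ := Finset.mem_biUnion.1 hqU
        rw [← h] at hx
        exact absurd (hA1dis x hx q hxq) (not_lt.mpr hpq.le)
      have h3 := ih A1 hlt
      have h4 : A2.card ≤ ((q : ℕ) + 1) - ((p : ℕ) + 1) := by
        apply count_le d D δ hD hsum hpos h1 h2 hδ0 hδ ((p : ℕ) + 1) ((q : ℕ) + 1)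
          (by have : (p : ℕ) < q := hpq
              omega) (by have := q.2; omega) A2
        intro x hx t ht
        rw [hA2, Finset.mem_filter] at hx
        have := hx.2 ht
        rw [Finset.mem_Ioc] at this
        have h5 : (p : ℕ) < t := this.1
        have h6 : (t : ℕ) ≤ q := this.2
        omega
      have hdis : Disjoint (A1.biUnion (adm d D δ)) (Finset.Ioc p q) := by
        rw [Finset.disjoint_left]
        intro t ht ht'
        obtain ⟨x, hx, hxt⟩ := Finset.mem_biUnion.1 ht
        have := hA1dis x hx t hxt
        rw [Finset.mem_Ioc] at ht'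
        exact absurd this (not_lt.mpr ht'.1.le)
      have h7 : (A1.biUnion (adm d D δ)) ∪ (Finset.Ioc p q) ⊆ U := by
        apply Finset.union_subset _ hsub
        intro t ht
        obtain ⟨x, hx, hxt⟩ := Finset.mem_biUnion.1 ht
        exact hin x (Finset.filter_subset _ _ hx) t hxt
      have h8 := Finset.card_le_card h7
      rw [Finset.card_union_of_disjoint hdis, Fin.card_Ioc] at h8
      omega

/-- a word of length `D` in which the letter `i` occurs `d i` times -/
def IsSeq {n : ℕ} (d : Fin n → ℕ) {D : ℕ} (s : Fin D → Fin n) : Prop :=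
  ∀ i, (Finset.univ.filter (fun t => s t = i)).card = d i

/-- `x_{ik}`: the number of occurrences of `i` among the first `k` letters of `s` -/
def occ {n D : ℕ} (s : Fin D → Fin n) (i : Fin n) (k : ℕ) : ℕ :=
  (Finset.univ.filter (fun t : Fin D => (t : ℕ) < k ∧ s t = i)).card

theorem exists_seq {n : ℕ} (d : Fin n → ℕ) (D : ℕ) (δ : ℝ) (hD : 0 < D) (hsum : ∑ i, d i = D)
    (hpos : ∀ i, 0 < d i) (h1 : (n - 1 : ℝ) * (2 * δ) ≤ 1) (h2 : n * δ < 1) (hδ0 : 0 ≤ δ)
    (hδ : δ < 1 / 2) : ∃ s : Fin D → Fin n, IsSeq d s ∧ ∀ (i : Fin n) (k : ℕ), k ≤ D →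
      |(occ s i k : ℝ) - k * ((d i : ℝ) / D)| < 1 - δ := by
  classical
  obtain ⟨f, hf, hfm⟩ := (Finset.all_card_le_biUnion_card_iff_exists_injective
    (adm d D δ)).1 (hall_cond d D δ hD hsum hpos h1 h2 hδ0 hδ)
  have hcard : Fintype.card (Job d) = Fintype.card (Fin D) := by
    rw [Fintype.card_sigma, Fintype.card_fin]
    simpa using hsum
  have hbij : Function.Bijective f := (Fintype.bijective_iff_injective_and_card f).2 ⟨hf, hcard⟩
  let e : Job d ≃ Fin D := Equiv.ofBijective f hbij
  have he : ∀ x, e x = f x := fun x => rfl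
  let s : Fin D → Fin n := fun t => (e.symm t).1
  have hse : ∀ x, s (e x) = x.1 := fun x => by simp [s]
  -- general counting
  have hcnt : ∀ (i : Fin n) (Pr : Fin D → Prop) [DecidablePred Pr],
      (Finset.univ.filter (fun t => Pr t ∧ s t = i)).card =
        (Finset.univ.filter (fun j : Fin (d i) => Pr (e ⟨i, j⟩))).card := by
    intro i Pr _
    symm
    apply Finset.card_bij (fun j _ => e ⟨i, j⟩)
    · intro j hj
      simp only [Finset.mem_filter, Finset.mem_univ, true_and] at hj ⊢
      exact ⟨hj, hse _⟩
    · intro j _ j' _ h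
      have := e.injective h
      simpa using this
    · intro t ht
      simp only [Finset.mem_filter, Finset.mem_univ, true_and] at ht
      obtain ⟨h3, h4⟩ := ht
      have h5 : (e.symm t).1 = i := h4
      rcases he' : e.symm t with ⟨i', j'⟩
      rw [he'] at h5
      simp only at h5
      subst h5
      refine ⟨j', ?_, ?_⟩
      · simp only [Finset.mem_filter, Finset.mem_univ, true_and]
        rw [← he', e.apply_symm_apply]; exact h3
      · rw [← he', e.apply_symm_apply]
  refine ⟨s, ?_, ?_⟩
  · intro i
    have := hcnt i (fun _ => True)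
    simp only [true_and, Finset.filter_true, Finset.card_univ, Fintype.card_fin] at this
    exact this
  · intro i k hk
    have hD' : (0 : ℝ) < D := by exact_mod_cast hD
    set r : ℝ := (d i : ℝ) / D with hr
    have hr0 : 0 ≤ r := by positivity
    have hDr : (D : ℝ) * r = d i := by rw [hr]; field_simp
    have hocc : occ s i k =
        (Finset.univ.filter (fun j : Fin (d i) => (e ⟨i, j⟩ : ℕ) < k)).card :=
      hcnt i (fun t => (t : ℕ) < k)
    set X := Finset.univ.filter (fun j : Fin (d i) => (e ⟨i, j⟩ : ℕ) < k) with hX
    set Y := Finset.univ.filter (fun j : Fin (d i) => ¬ (e ⟨i, j⟩ : ℕ) < k) with hY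
    have hXY : X.card + Y.card = d i := by
      rw [hX, hY, Finset.card_filter_add_card_filter_not]
      simp
    rw [hocc, abs_lt]
    constructor
    · -- `k r - (1-δ) < x`
      rcases Y.eq_empty_or_nonempty with h0 | hne
      · have : X.card = d i := by rw [h0] at hXY; simpa using hXY
        rw [this, ← hDr]
        have : (k : ℝ) ≤ D := by exact_mod_cast hk
        have := mul_le_mul_of_nonneg_right this hr0
        linarith
      · -- an element of `Y` with `j ≤ d i - |Y|`
        obtain ⟨j, hj, hjl⟩ : ∃ j ∈ Y, (j : ℕ) ≤ X.card := by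
          by_contra hcon
          push Not at hcon
          have : Y.card ≤ (Finset.Ioo X.card (d i)).card := by
            apply Finset.card_le_card_of_injOn (fun j : Fin (d i) => (j : ℕ))
            · intro j hj
              have := hcon j hj
              simp only [Finset.coe_Ioo, Set.mem_Ioo]
              exact ⟨this, j.2⟩
            · intro a _ b _ h
              exact Fin.ext h
          rw [Nat.card_Ioo] at this
          have := Finset.card_pos.2 hne
          omega
        have hm := (mem_adm d D δ _ _).1 (hfm ⟨i, j⟩)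
        have h3 := hm.2
        simp only [hY, Finset.mem_filter, Finset.mem_univ, true_and, not_lt] at hj
        have h4 : (k : ℝ) ≤ ((f ⟨i, j⟩ : ℕ) : ℝ) := by exact_mod_cast hj
        have h5 := mul_le_mul_of_nonneg_right h4 hr0
        have h6 : ((j : ℕ) : ℝ) ≤ X.card := by exact_mod_cast hjl
        change ((f ⟨i, j⟩ : ℕ) : ℝ) * r - ((j : ℕ) : ℝ) < 1 - δ at h3
        linarith
    · rcases X.eq_empty_or_nonempty with h0 | hne
      · rw [h0]
        have : 0 ≤ (k : ℝ) * r := by positivity
        simp; linarith
      · obtain ⟨j, hj, hjl⟩ : ∃ j ∈ X, X.card ≤ (j : ℕ) + 1 := by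
          by_contra hcon
          push Not at hcon
          have : X.card ≤ (Finset.range (X.card - 1)).card := by
            apply Finset.card_le_card_of_injOn (fun j : Fin (d i) => (j : ℕ))
            · intro j hj
              have := hcon j hj
              simp only [Finset.coe_range, Set.mem_Iio]
              omega
            · intro a _ b _ h
              exact Fin.ext h
          rw [Finset.card_range] at this
          have := Finset.card_pos.2 hne
          omega
        have hm := (mem_adm d D δ _ _).1 (hfm ⟨i, j⟩)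
        have h3 := hm.1
        simp only [hX, Finset.mem_filter, Finset.mem_univ, true_and] at hj
        have h4 : ((f ⟨i, j⟩ : ℕ) : ℝ) + 1 ≤ (k : ℝ) := by exact_mod_cast hj
        have h5 := mul_le_mul_of_nonneg_right h4 hr0
        have h6 : ((X.card : ℕ) : ℝ) ≤ ((j : ℕ) : ℝ) + 1 := by exact_mod_cast hjl
        change ((j : ℕ) : ℝ) + 1 - (((f ⟨i, j⟩ : ℕ) : ℝ) + 1) * r < 1 - δ at h3
        linarith

end Pool.Agent.K7.H73.BD
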