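import Mathlib

set_option autoImplicit false

namespace Pool.Agent.K7.H73.BD

open Finset

/-- the jobs: pairs (letter, number of the copy, counted from 0) -/
abbrev Job {n : ℕ} (d : Fin n → ℕ) := (i : Fin n) × Fin (d i)

/-- the admissible places of a job -/
noncomputable def adm {n : ℕ} (d : Fin n → ℕ) (D : ℕ) (δ : ℝ) (x : Job d) : Finset (Fin D) :=
  by
    classical
    exact univ.filter (fun t : Fin D =>
      ((x.2 : ℕ) : ℝ) + 1 - ((t : ℕ) + 1) * ((d x.1 : ℝ) / D) < 1 - δ ∧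
      ((t : ℕ) : ℝ) * ((d x.1 : ℝ) / D) - ((x.2 : ℕ) : ℝ) < 1 - δ)

theorem mem_adm {n : ℕ} (d : Fin n → ℕ) (D : ℕ) (δ : ℝ) (x : Job d) (t : Fin D) :
    t ∈ adm d D δ x ↔
      ((x.2 : ℕ) : ℝ) + 1 - ((t : ℕ) + 1) * ((d x.1 : ℝ) / D) < 1 - δ ∧
      ((t : ℕ) : ℝ) * ((d x.1 : ℝ) / D) - ((x.2 : ℕ) : ℝ) < 1 - δ := by
  classical
  unfold adm
  simp

theorem adm_nonempty {n : ℕ} (d : Fin n → ℕ) (D : ℕ) (δ : ℝ) (hD : 0 < D)
    (hδ : δ < 1 / 2) (x : Job d) : (adm d D δ x).Nonempty := by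
  classical
  set r : ℝ := (d x.1 : ℝ) / D with hr
  have hr0 : 0 ≤ r := by positivity
  have hDr : (D : ℝ) * r = d x.1 := by
    rw [hr]; field_simp
  have hj : ((x.2 : ℕ) : ℝ) + 1 ≤ d x.1 := by exact_mod_cast x.2.2
  -- smallest `t` with `j + δ < (t+1) r`
  have hex : ∃ t : ℕ, ((x.2 : ℕ) : ℝ) + δ < ((t : ℝ) + 1) * r := by
    refine ⟨D - 1, ?_⟩
    have : (((D - 1 : ℕ) : ℝ) + 1) = D := by
      have : (D - 1 + 1 : ℕ) = D := by omega
      exact_mod_cast this
    rw [this, hDr]; linarith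
  let t0 := Nat.find hex
  have h1 : ((x.2 : ℕ) : ℝ) + δ < ((t0 : ℝ) + 1) * r := Nat.find_spec hex
  have h2 : t0 < D := by
    have : t0 ≤ D - 1 := by
      apply Nat.find_min' hex
      have : (((D - 1 : ℕ) : ℝ) + 1) = D := by
        have : (D - 1 + 1 : ℕ) = D := by omega
        exact_mod_cast this
      rw [this, hDr]; linarith
    omega
  refine ⟨⟨t0, h2⟩, ?_⟩
  rw [mem_adm]
  refine ⟨?_, ?_⟩
  · change ((x.2 : ℕ) : ℝ) + 1 - ((t0 : ℝ) + 1) * r < 1 - δ
    linarith
  · change (t0 : ℝ) * r - ((x.2 : ℕ) : ℝ) < 1 - δ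
    rcases Nat.eq_zero_or_pos t0 with h0 | h0
    · rw [h0]
      have : (0 : ℝ) ≤ ((x.2 : ℕ) : ℝ) := by positivity
      simp; linarith
    · have h3 := Nat.find_min hex (m := t0 - 1) (by change t0 - 1 < t0; omega)
      push Not at h3
      have : (((t0 - 1 : ℕ) : ℝ) + 1) = t0 := by
        have : (t0 - 1 + 1 : ℕ) = t0 := by omega
        exact_mod_cast this
      rw [this] at h3
      linarith

theorem adm_convex {n : ℕ} (d : Fin n → ℕ) (D : ℕ) (δ : ℝ) (x : Job d) {a b c : Fin D}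
    (hab : a ≤ b) (hbc : b ≤ c) (ha : a ∈ adm d D δ x) (hc : c ∈ adm d D δ x) :
    b ∈ adm d D δ x := by
  rw [mem_adm] at *
  have hr0 : 0 ≤ (d x.1 : ℝ) / D := by positivity
  have h1 : ((a : ℕ) : ℝ) ≤ ((b : ℕ) : ℝ) := by exact_mod_cast hab
  have h2 : ((b : ℕ) : ℝ) ≤ ((c : ℕ) : ℝ) := by exact_mod_cast hbc
  have h3 := mul_le_mul_of_nonneg_right h1 hr0
  have h4 := mul_le_mul_of_nonneg_right h2 hr0
  refine ⟨?_, ?_⟩
  · have := ha.1
    nlinarith
  · have := hc.2
    nlinarith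

/-- the numerical core -/
theorem core {n : ℕ} (d : Fin n → ℕ) (D : ℕ) (δ : ℝ) (hD : 0 < D) (hsum : ∑ i, d i = D)
    (hpos : ∀ i, 0 < d i) (h1 : (n - 1 : ℝ) * (2 * δ) ≤ 1) (h2 : n * δ < 1) (hδ0 : 0 ≤ δ)
    (P Q : ℕ) (hPQ : P < Q) :
    ∑ i, ((⌊(Q : ℝ) * ((d i : ℝ) / D) - 1 + δ⌋ + 1) - ⌈(P : ℝ) * ((d i : ℝ) / D) - δ⌉).toNat
      ≤ Q - P := by
  classical
  have hD' : (0 : ℝ) < D := by exact_mod_cast hD
  have hrs : ∑ i, ((d i : ℝ) / D) = 1 := by
    rw [← Finset.sum_div]
    have : (∑ i, (d i : ℝ)) = D := by exact_mod_cast hsum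
    rw [this]; field_simp
  set a : Fin n → ℤ := fun i => ⌈(P : ℝ) * ((d i : ℝ) / D) - δ⌉ with ha
  set b : Fin n → ℤ := fun i => ⌊(Q : ℝ) * ((d i : ℝ) / D) - 1 + δ⌋ with hb
  have hbl : ∀ i, (b i : ℝ) ≤ (Q : ℝ) * ((d i : ℝ) / D) - 1 + δ := fun i => Int.floor_le _
  have hal : ∀ i, (P : ℝ) * ((d i : ℝ) / D) - δ ≤ a i := fun i => Int.le_ceil _
  set I : Finset (Fin n) := univ.filter (fun i => a i ≤ b i) with hI
  have hsplit : (∑ i, ((b i + 1) - a i).toNat : ℕ) = ∑ i ∈ I, ((b i + 1) - a i).toNat := by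
    symm
    apply Finset.sum_subset (Finset.subset_univ _)
    intro i _ hi
    have : ¬ a i ≤ b i := by simpa [hI] using hi
    omega
  have hcast : ((∑ i ∈ I, ((b i + 1) - a i).toNat : ℕ) : ℤ) = ∑ i ∈ I, ((b i + 1) - a i) := by
    push_cast
    apply Finset.sum_congr rfl
    intro i hi
    have : a i ≤ b i := by simpa [hI] using hi
    omega
  have hmain : ∑ i ∈ I, ((b i + 1) - a i) ≤ (Q : ℤ) - P := by
    by_cases hu : I = univ
    · rw [hu]
      have e1 : ∑ i, b i ≤ (Q : ℤ) - n := by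
        have : (∑ i, (b i : ℝ)) ≤ Q - n + n * δ := by
          calc (∑ i, (b i : ℝ)) ≤ ∑ i, ((Q : ℝ) * ((d i : ℝ) / D) - 1 + δ) :=
                Finset.sum_le_sum (fun i _ => hbl i)
            _ = Q - n + n * δ := by
                rw [Finset.sum_add_distrib, Finset.sum_sub_distrib, ← Finset.mul_sum, hrs]
                simp
        have h3 : ((∑ i, b i : ℤ) : ℝ) < ((Q : ℤ) - n + 1 : ℤ) := by
          push_cast
          linarith
        have := Int.cast_lt.mp h3
        omega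
      have e2 : (P : ℤ) ≤ ∑ i, a i := by
        have : (P : ℝ) - n * δ ≤ ∑ i, (a i : ℝ) := by
          calc (P : ℝ) - n * δ = ∑ i, ((P : ℝ) * ((d i : ℝ) / D) - δ) := by
                rw [Finset.sum_sub_distrib, ← Finset.mul_sum, hrs]
                simp
            _ ≤ _ := Finset.sum_le_sum (fun i _ => hal i)
        have h3 : (((P : ℤ) - 1 : ℤ) : ℝ) < ((∑ i, a i : ℤ) : ℝ) := by
          push_cast
          linarith
        have := Int.cast_lt.mp h3
        omega
      have e3 : ∑ i, ((b i + 1) - a i) = ∑ i, b i + n - ∑ i, a i := by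
        rw [Finset.sum_sub_distrib, Finset.sum_add_distrib]
        simp
      rw [e3]
      omega
    · obtain ⟨k, hk⟩ : ∃ k, k ∉ I := by
        by_contra h
        push Not at h
        exact hu (Finset.eq_univ_iff_forall.mpr h)
      have hIk : I ⊆ univ.erase k := fun i hi => by
        simp only [Finset.mem_erase, Finset.mem_univ, and_true]
        rintro rfl; exact hk hi
      have hcard : ((I.card : ℕ) : ℝ) ≤ n - 1 := by
        have := Finset.card_le_card hIk
        rw [Finset.card_erase_of_mem (Finset.mem_univ k), Finset.card_univ, Fintype.card_fin] at this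
        have hn : 1 ≤ n := by
          have := k.2; omega
        have h5 : ((n - 1 : ℕ) : ℝ) = n - 1 := by push_cast [hn]; ring
        rw [← h5]; exact_mod_cast this
      have hrk : 0 < (d k : ℝ) / D := by
        have : (0 : ℝ) < d k := by exact_mod_cast hpos k
        positivity
      have hPQ' : (P : ℝ) + 1 ≤ Q := by exact_mod_cast hPQ
      have hsI : ∑ i ∈ I, ((d i : ℝ) / D) ≤ 1 - (d k : ℝ) / D := by
        have h6 : ∑ i ∈ I, ((d i : ℝ) / D) ≤ ∑ i ∈ univ.erase k, ((d i : ℝ) / D) :=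
          Finset.sum_le_sum_of_subset_of_nonneg hIk (fun i _ _ => by positivity)
        have h7 := Finset.sum_erase_add univ (fun i => (d i : ℝ) / D) (Finset.mem_univ k)
        rw [hrs] at h7
        linarith
      have e4 : (∑ i ∈ I, (((b i : ℝ) + 1) - a i)) < (Q : ℝ) - P + 1 := by
        calc (∑ i ∈ I, (((b i : ℝ) + 1) - a i))
            ≤ ∑ i ∈ I, (((Q : ℝ) - P) * ((d i : ℝ) / D) + 2 * δ) := by
              apply Finset.sum_le_sum
              intro i _
              have := hbl i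
              have := hal i
              linarith
          _ = ((Q : ℝ) - P) * ∑ i ∈ I, ((d i : ℝ) / D) + I.card * (2 * δ) := by
              rw [Finset.sum_add_distrib, ← Finset.mul_sum]
              simp
          _ ≤ ((Q : ℝ) - P) * (1 - (d k : ℝ) / D) + (n - 1) * (2 * δ) := by
              have : (0 : ℝ) ≤ (Q : ℝ) - P := by linarith
              have h8 := mul_le_mul_of_nonneg_left hsI this
              have h9 := mul_le_mul_of_nonneg_right hcard (by linarith : (0 : ℝ) ≤ 2 * δ)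
              linarith
          _ < (Q : ℝ) - P + 1 := by
              have : (0 : ℝ) < ((Q : ℝ) - P) * ((d k : ℝ) / D) := by
                apply mul_pos _ hrk
                linarith
              nlinarith
      have e5 : ((∑ i ∈ I, ((b i + 1) - a i) : ℤ) : ℝ) < (((Q : ℤ) - P + 1 : ℤ) : ℝ) := by
        push_cast
        exact e4
      have := Int.cast_lt.mp e5
      omega
  have : ((∑ i, ((b i + 1) - a i).toNat : ℕ) : ℤ) ≤ ((Q - P : ℕ) : ℤ) := by
    rw [hsplit, hcast]
    omega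
  exact_mod_cast this

theorem count_le {n : ℕ} (d : Fin n → ℕ) (D : ℕ) (δ : ℝ) (hD : 0 < D) (hsum : ∑ i, d i = D)
    (hpos : ∀ i, 0 < d i) (h1 : (n - 1 : ℝ) * (2 * δ) ≤ 1) (h2 : n * δ < 1) (hδ0 : 0 ≤ δ)
    (hδ : δ < 1 / 2) (P Q : ℕ) (hPQ : P < Q) (hQ : Q ≤ D) (A : Finset (Job d))
    (hA : ∀ x ∈ A, ∀ t ∈ adm d D δ x, P ≤ (t : ℕ) ∧ (t : ℕ) < Q) :
    A.card ≤ Q - P := by
  classical
  refine le_trans ?_ (core d D δ hD hsum hpos h1 h2 hδ0 P Q hPQ)
  have hD' : (0 : ℝ) < D := by exact_mod_cast hD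
  -- bounds for the copies
  have key : ∀ x ∈ A, ⌈(P : ℝ) * ((d x.1 : ℝ) / D) - δ⌉ ≤ ((x.2 : ℕ) : ℤ) ∧
      ((x.2 : ℕ) : ℤ) ≤ ⌊(Q : ℝ) * ((d x.1 : ℝ) / D) - 1 + δ⌋ := by
    intro x hx
    obtain ⟨t0, ht0⟩ := adm_nonempty d D δ hD hδ x
    have hb := hA x hx t0 ht0
    have hm := (mem_adm d D δ x t0).1 ht0
    have hr0 : 0 ≤ (d x.1 : ℝ) / D := by positivity
    set r : ℝ := (d x.1 : ℝ) / D with hr
    have hDr : (D : ℝ) * r = d x.1 := by rw [hr]; field_simp
    have hj : ((x.2 : ℕ) : ℝ) + 1 ≤ d x.1 := by exact_mod_cast x.2.2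
    constructor
    · rw [Int.ceil_le]
      push_cast
      rcases Nat.eq_zero_or_pos P with hP | hP
      · rw [hP]
        have : (0 : ℝ) ≤ ((x.2 : ℕ) : ℝ) := by positivity
        simp; linarith
      · have hlt : P - 1 < D := by omega
        have hn : (⟨P - 1, hlt⟩ : Fin D) ∉ adm d D δ x := by
          intro h
          have := (hA x hx _ h).1
          simp at this
          omega
        rw [mem_adm] at hn
        have hP1 : (((P - 1 : ℕ) : ℝ)) = P - 1 := by push_cast [hP]; ring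
        simp only [hP1] at hn
        by_contra hcon
        apply hn
        refine ⟨?_, ?_⟩
        · have : (P : ℝ) - 1 + 1 = P := by ring
          rw [this]
          push Not at hcon
          linarith
        · have h5 : (P : ℝ) ≤ ((t0 : ℕ) : ℝ) := by exact_mod_cast hb.1
          have h6 := mul_le_mul_of_nonneg_right h5 hr0
          have := hm.2
          nlinarith
    · rw [Int.le_floor]
      push_cast
      rcases Nat.lt_or_ge Q D with hQD | hQD
      · have hn : (⟨Q, hQD⟩ : Fin D) ∉ adm d D δ x := by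
          intro h
          have := (hA x hx _ h).2
          simp at this
        rw [mem_adm] at hn
        by_contra hcon
        apply hn
        refine ⟨?_, ?_⟩
        · have h5 : ((t0 : ℕ) : ℝ) ≤ (Q : ℝ) := by exact_mod_cast hb.2.le
          have h6 := mul_le_mul_of_nonneg_right h5 hr0
          have := hm.1
          change ((x.2 : ℕ) : ℝ) + 1 - ((Q : ℝ) + 1) * r < 1 - δ
          nlinarith
        · change ((Q : ℕ) : ℝ) * r - ((x.2 : ℕ) : ℝ) < 1 - δ
          push Not at hcon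
          linarith
      · have : Q = D := by omega
        rw [this, hDr]
        linarith
  -- count
  have hcard : A.card = ∑ i, (A.filter (fun x => x.1 = i)).card := by
    rw [← Finset.card_biUnion]
    · congr 1
      ext x; simp
    · intro i _ j _ hij
      rw [Function.onFun, Finset.disjoint_left]
      intro x hx hx'
      simp only [Finset.mem_filter] at hx hx'
      exact hij (hx.2.symm.trans hx'.2)
  rw [hcard]
  apply Finset.sum_le_sum
  intro i _
  rw [← Int.card_Icc]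
  apply Finset.card_le_card_of_injOn (fun x => ((x.2 : ℕ) : ℤ))
  · intro x hx
    simp only [Finset.coe_filter, Set.mem_setOf_eq] at hx
    obtain ⟨hx1, rfl⟩ := hx
    have := key x hx1
    simpa using this
  · intro x hx y hy hxy
    simp only [Finset.coe_filter, Set.mem_setOf_eq] at hx hy
    obtain ⟨-, hx⟩ := hx
    obtain ⟨-, hy⟩ := hy
    obtain ⟨i1, j1⟩ := x
    obtain ⟨i2, j2⟩ := y
    simp only at hx hy hxy
    subst hx
    subst hy
    have : (j1 : ℕ) = j2 := by exact_mod_cast hxy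
    have : j1 = j2 := Fin.ext this
    rw [this]

end Pool.Agent.K7.H73.BD
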